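import Pool.Agent.Lib.MP_ce123d_al.Construction

/-!
# Co-hopficity is not inherited by finite Green index extensions

There is a monoid `S` with a submonoid `T` of Green index two such that `T` is finitely generated
and co-hopfian as a semigroup, while `S` has an injective monoid endomorphism which is not
surjective.
-/

set_option autoImplicit false

namespace Pool.Agent.Results.MP_ce123d_al.MonoidIndexTwo

open Pool.Agent.Lib.CoHopf

/-- `u T¹ = v T¹`. -/
def RelR {S : Type} [Semigroup S] (T : Subsemigroup S) (u v : S) : Prop :=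
  ({u} ∪ {x | ∃ t ∈ T, x = u * t} : Set S) = {v} ∪ {x | ∃ t ∈ T, x = v * t}

/-- `T¹ u = T¹ v`. -/
def RelL {S : Type} [Semigroup S] (T : Subsemigroup S) (u v : S) : Prop :=
  ({u} ∪ {x | ∃ t ∈ T, x = t * u} : Set S) = {v} ∪ {x | ∃ t ∈ T, x = t * v}

/-- The relation `H` relative to `T`. -/
def RelH {S : Type} [Semigroup S] (T : Subsemigroup S) (u v : S) : Prop :=
  RelR T u v ∧ RelL T u v

/-- The Green index of `T` in `S`: one plus the number of the classes of the relation `H` relative
to `T` which are contained in the complement of `T`. -/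
noncomputable def greenIndex {S : Type} [Semigroup S] (T : Subsemigroup S) : ℕ∞ :=
  1 + {K : Set S | K ⊆ (T : Set S)ᶜ ∧ ∃ u, K = {v | RelH T u v}}.encard

/-- Every injective endomorphism of the semigroup is surjective. -/
def IsCoHopfian (S : Type) [Semigroup S] : Prop :=
  ∀ f : S →ₙ* S, Function.Injective f → Function.Surjective f

lemma relR_of {S : Type} [Semigroup S] (T : Subsemigroup S) {u v : S}
    (h1 : u = v ∨ ∃ t ∈ T, u = v * t) (h2 : v = u ∨ ∃ t ∈ T, v = u * t) : RelR T u v := by
  have key : ∀ u v : S, (u = v ∨ ∃ t ∈ T, u = v * t) →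
      ({u} ∪ {x | ∃ t ∈ T, x = u * t} : Set S) ⊆ {v} ∪ {x | ∃ t ∈ T, x = v * t} := by
    rintro u v (rfl | ⟨t, ht, rfl⟩)
    · exact subset_rfl
    · rintro x (hx | ⟨s, hs, rfl⟩)
      · rw [Set.mem_singleton_iff] at hx
        subst hx
        exact Or.inr ⟨t, ht, rfl⟩
      · exact Or.inr ⟨t * s, T.mul_mem ht hs, mul_assoc _ _ _⟩
  exact Set.Subset.antisymm (key u v h1) (key v u h2)

lemma relL_of {S : Type} [Semigroup S] (T : Subsemigroup S) {u v : S}
    (h1 : u = v ∨ ∃ t ∈ T, u = t * v) (h2 : v = u ∨ ∃ t ∈ T, v = t * u) : RelL T u v := by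
  have key : ∀ u v : S, (u = v ∨ ∃ t ∈ T, u = t * v) →
      ({u} ∪ {x | ∃ t ∈ T, x = t * u} : Set S) ⊆ {v} ∪ {x | ∃ t ∈ T, x = t * v} := by
    rintro u v (rfl | ⟨t, ht, rfl⟩)
    · exact subset_rfl
    · rintro x (hx | ⟨s, hs, rfl⟩)
      · rw [Set.mem_singleton_iff] at hx
        subst hx
        exact Or.inr ⟨t, ht, rfl⟩
      · exact Or.inr ⟨s * t, T.mul_mem hs ht, (mul_assoc _ _ _).symm⟩
  exact Set.Subset.antisymm (key u v h1) (key v u h2)

lemma one_mul' (x : El) : El.g 0 1 * x = x := by
  cases x <;> simp [gg, ga, gb, gc, xz]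

lemma mul_one' (x : El) : x * El.g 0 1 = x := by
  cases x <;> simp [gg, ag, bg, cg, zx]

/-- the monoid structure -/
noncomputable instance instMonoidEl : Monoid El :=
  { (inferInstance : Semigroup El) with
    one := El.g 0 1
    one_mul := one_mul'
    mul_one := mul_one' }

/-- the submonoid -/
noncomputable def TM : Submonoid El where
  carrier := {x | inT x}
  mul_mem' := T.mul_mem'
  one_mem' := (sg_even (by norm_num)).symm

/-- **Co-hopficity and finite Green index.** -/
theorem result : ∃ (S : Type) (_ : Monoid S) (T : Submonoid S),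
    (∃ G : Finset S, Subsemigroup.closure (G : Set S) = T.toSubsemigroup) ∧
    greenIndex T.toSubsemigroup = 2 ∧ IsCoHopfian T.toSubsemigroup ∧
    ∃ f : S →* S, Function.Injective f ∧ ¬ Function.Surjective f := by
  refine ⟨El, instMonoidEl, TM, T_fg, ?_, T_cohopf, ?_⟩
  · have hT : (TM.toSubsemigroup : Subsemigroup El) = T := rfl
    rw [hT]
    have hr : El.g 0 (-1) ∉ T := by
      intro h1
      have h2 : (-1 : ℤˣ) = sg 0 := h1
      rw [sg_even (by norm_num)] at h2
      exact absurd h2 (by decide)
    have hrel : ∀ u, u ∉ T → RelH T u (El.g 0 (-1)) := fun u hu =>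
      ⟨relR_of T (T_green1 u hu).1.1 (T_green1 u hu).1.2,
        relL_of T (T_green1 u hu).2.1 (T_green1 u hu).2.2⟩
    have hout : ∀ u v, u ∉ T → RelH T u v → v ∉ T := by
      intro u v hu h1 hv
      apply hu
      have h2 : u ∈ ({v} ∪ {x | ∃ t ∈ T, x = v * t} : Set El) := by
        rw [← h1.1]
        exact Or.inl rfl
      rcases h2 with h2 | ⟨t, ht, rfl⟩
      · rw [Set.mem_singleton_iff] at h2
        subst h2
        exact hv
      · exact T.mul_mem hv ht
    have hset : {K : Set El | K ⊆ (T : Set El)ᶜ ∧ ∃ u, K = {v | RelH T u v}} =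
        {(T : Set El)ᶜ} := by
      apply Set.Subset.antisymm
      · rintro K ⟨hK, u, rfl⟩
        rw [Set.mem_singleton_iff]
        have hu : u ∉ T := hK (show RelH T u u from ⟨rfl, rfl⟩)
        apply Set.Subset.antisymm hK
        intro v hv
        have h1 := hrel u hu
        have h2 := hrel v hv
        exact ⟨h1.1.trans h2.1.symm, h1.2.trans h2.2.symm⟩
      · rintro K rfl
        refine ⟨subset_rfl, El.g 0 (-1), ?_⟩
        apply Set.Subset.antisymm
        · intro v hv
          have h2 := hrel v hv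
          exact ⟨h2.1.symm, h2.2.symm⟩
        · intro v hv
          exact hout _ v hr hv
    unfold greenIndex
    rw [hset, Set.encard_singleton]
    rfl
  · refine ⟨{ toFun := dbl, map_one' := rfl, map_mul' := dbl_mul }, ?_, ?_⟩
    · intro x y hxy
      change dbl x = dbl y at hxy
      cases x <;> cases y <;> simp [dbl] at hxy ⊢ <;> exact hxy
    · intro h1
      obtain ⟨x, hx⟩ := h1 (El.a 1)
      change dbl x = El.a 1 at hx
      cases x <;> simp [dbl] at hx
      omega

end Pool.Agent.Results.MP_ce123d_al.MonoidIndexTwo
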